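import Pool.Agent.P.MP_ad7a55_nt.JoinedClassNumberBound
import Pool.Agent.P.MP_ad7a55_nt.BrFin
import Pool.Agent.P.MP_ad7a55_nt.BrQ
import Pool.Agent.P.MP_ad7a55_nt.BrRat

open UpperHalfPlane MeasureTheory Filter Topology Pool.Agent.EQ
open scoped MatrixGroups

namespace Pool.Agent.Results.MP_ad7a55_nt.ExceptionalSet

theorem result : ∀ n : ℕ, ∃ (b : ℕ) (E : Set ℤ),
    (∃ C : ℝ, ∀ X : ℕ, ({m : ℕ | m ≤ X ∧ Squarefree m ∧ ∃ f : ℤ, -(f ^ 2 * m) ∈ E}.ncard : ℝ) ≤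
      C * Real.exp (Real.log (Real.log X) ^ b)) ∧
    (∀ D ∈ E, ∀ (d f : ℤ) (x w : ℝ), Squarefree d → D = f ^ 2 * d → x = Real.log |(D : ℝ)| →
      w = Real.log x ^ b →
      ({z : ℂ | ∃ t : ℍ, HasDisc t D ∧ jInv t = z}.ncard : ℝ) < Real.sqrt |(D : ℝ)| * w / x ∧
        x / w < Real.log |(d : ℝ)| ∧
        ∃ (M : ℕ) (_ : NeZero M) (χ : DirichletCharacter ℂ M) (s : ℂ), M = 4 * d.natAbs ∧
          (∀ m : ℕ, Odd m → χ m = jacobiSym d m) ∧ ‖s - 2‖ < 1 + w / x ∧ χ.LFunction s = 0) ∧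
    ∀ N : ℕ, 0 < N → ∀ (Γ : Fin n → Subgroup SL(2, ℤ)),
      (∀ k, CongruenceSubgroup.Gamma N ≤ Γ k) →
      ∀ (F L : IntermediateField ℚ ℂ) [FiniteDimensional ℚ F] [FiniteDimensional ℚ L]
        (B : Fin n → Set (ℍ → ℂ)), (∀ k, jInv ∈ B k) → (∀ k, ∀ f ∈ B k, IsMF (Γ k) N L f) →
      ∀ (τ : ℕ → Fin n → ℍ) (D : ℕ → Fin n → ℤ), (∀ i k, HasDisc (τ i k) (D i k)) →
      (∀ k, ∀ᶠ i in atTop, D i k ∉ E) →
      (∀ k, ∀ z : ℂ, {i | jInv (τ i k) = z}.Finite) →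
      (∀ k l, k ≠ l → ∀ a b c d : ℤ, 0 < a * d - b * c →
        {i | ∃ z w : ℍ, (w : ℂ) = (a * z + b) / (c * z + d) ∧ jInv (τ i k) = jInv z ∧
          jInv (τ i l) = jInv w}.Finite) →
      ∀ f : (∀ k, YG (Γ k)) → ℝ, Continuous f → HasCompactSupport f →
        (∀ i, (orbG F Γ B (τ i)).Finite) ∧
          Tendsto (fun i => (∑ᶠ y ∈ orbG F Γ B (τ i), f y) / (orbG F Γ B (τ i)).ncard) atTop
            (𝓝 (∫ w, f (fun k => Quotient.mk _ (w k)) ∂(Measure.pi fun k => mH (Γ k)))) := by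
  intro n
  obtain ⟨b, E, ⟨C, hC⟩, h⟩ := Joined.joined n
  refine ⟨b, {D | ∀ (d f : ℤ) (x w : ℝ), Squarefree d → D = f ^ 2 * d →
      x = Real.log |(D : ℝ)| → w = Real.log x ^ b → d.natAbs ∈ E ∧
      (({z : ℂ | ∃ t : ℍ, HasDisc t D ∧ jInv t = z}.ncard : ℝ) < Real.sqrt |(D : ℝ)| * w / x ∧
        x / w < Real.log |(d : ℝ)| ∧
        ∃ (M : ℕ) (_ : NeZero M) (χ : DirichletCharacter ℂ M) (s : ℂ), M = 4 * d.natAbs ∧
          (∀ m : ℕ, Odd m → χ m = jacobiSym d m) ∧ ‖s - 2‖ < 1 + w / x ∧ χ.LFunction s = 0)},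
    ⟨C, fun X => le_trans ?_ (hC X)⟩, fun D hD d f x w h1 h2 h3 h4 => (hD d f x w h1 h2 h3 h4).2,
    ?_⟩
  · refine Nat.cast_le.2 (Set.ncard_le_ncard ?_ ((Set.finite_Iic X).inter_of_right E))
    rintro m ⟨hm, hs, f, hf⟩
    have h1 : Squarefree (-(m : ℤ)) := by
      rw [← Int.squarefree_natAbs]
      simpa using hs
    have h2 := (hf (-(m : ℤ)) f _ _ h1 (by ring) rfl rfl).1
    exact ⟨by simpa using h2, hm⟩
  · intro N hN Γ hΓ F L _ _ B hj hB τ D hD hE hpt hgen f hf hs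
    refine h N hN Γ hΓ F L B hj hB ∅ (by simp) 0 1 1 one_pos one_pos τ D hD
      (fun k => (hE k).mono fun i hi => Or.inr ?_) hpt hgen f hf hs
    by_contra hc
    refine hi fun d g x w h1 h2 h3 h4 => ?_
    have h5 := fun P => hc ⟨d, g, x, w, h1, h2, h3, h4, P⟩
    refine ⟨by_contra fun h6 => h5 (Or.inr (Or.inl h6)), not_le.1 fun h6 => h5 (Or.inl h6),
      not_le.1 fun h6 => h5 (Or.inr (Or.inr (Or.inl h6))), by_contra fun h6 => ?_⟩
    exact h5 (Or.inr (Or.inr (Or.inr (Or.inl fun M hM χ h7 h8 s h9 h0 =>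
      h6 ⟨M, hM, χ, s, h7, h8, h9, h0⟩))))

/-- Side theorem: a zero-free half plane for the quadratic characters, in particular the
generalised Riemann hypothesis for them, removes the condition on the discriminants. -/
theorem zero_free_case {δ : ℝ} (hδ : 0 < δ)
    (hz : ∀ d : ℤ, d < 0 → Squarefree d → ∀ (M : ℕ) [NeZero M] (χ : DirichletCharacter ℂ M),
      M = 4 * d.natAbs → (∀ m : ℕ, Odd m → χ m = jacobiSym d m) →
      ∀ s : ℂ, 1 - δ < s.re → χ.LFunction s ≠ 0)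
    (n N : ℕ) (hN : 0 < N) (Γ : Fin n → Subgroup SL(2, ℤ))
    (hΓ : ∀ k, CongruenceSubgroup.Gamma N ≤ Γ k)
    (F L : IntermediateField ℚ ℂ) [FiniteDimensional ℚ F] [FiniteDimensional ℚ L]
    (B : Fin n → Set (ℍ → ℂ)) (hj : ∀ k, jInv ∈ B k) (hB : ∀ k, ∀ f ∈ B k, IsMF (Γ k) N L f)
    (τ : ℕ → Fin n → ℍ) (D : ℕ → Fin n → ℤ) (hD : ∀ i k, HasDisc (τ i k) (D i k))
    (hpt : ∀ k, ∀ z : ℂ, {i | jInv (τ i k) = z}.Finite)
    (hgen : ∀ k l, k ≠ l → ∀ a b c d : ℤ, 0 < a * d - b * c →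
      {i | ∃ z w : ℍ, (w : ℂ) = (a * z + b) / (c * z + d) ∧ jInv (τ i k) = jInv z ∧
        jInv (τ i l) = jInv w}.Finite)
    (f : (∀ k, YG (Γ k)) → ℝ) (hf : Continuous f) (hs : HasCompactSupport f) :
    (∀ i, (orbG F Γ B (τ i)).Finite) ∧
      Tendsto (fun i => (∑ᶠ y ∈ orbG F Γ B (τ i), f y) / (orbG F Γ B (τ i)).ncard) atTop
        (𝓝 (∫ w, f (fun k => Quotient.mk _ (w k)) ∂(Measure.pi fun k => mH (Γ k)))) := by
  obtain ⟨b, E, -, hE, h⟩ := result n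
  refine h N hN Γ hΓ F L B hj hB τ D hD (fun k => ?_) hpt hgen f hf hs
  have t1 : Tendsto (fun x : ℝ => Real.log x ^ b / x) atTop (𝓝 0) := by
    simpa using Real.tendsto_pow_log_div_mul_add_atTop 1 0 b one_ne_zero
  obtain ⟨Y, hY⟩ := eventually_atTop.1
    ((t1.comp Real.tendsto_log_atTop).eventually_le_const hδ)
  filter_upwards [disc_tendsto (fun i => hD i k) (hpt k) (max Y 1)] with i hi hm
  have h0 : (D i k : ℝ) < 0 := by linarith [le_max_right Y 1]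
  have h1 : D i k < 0 := by exact_mod_cast h0
  obtain ⟨a, g, e, ha⟩ := Nat.sq_mul_squarefree (D i k).natAbs
  have h2 : D i k = (g : ℤ) ^ 2 * (-(a : ℤ)) := by
    have h3 : ((D i k).natAbs : ℤ) = -D i k := by omega
    have h4 : ((g ^ 2 * a : ℕ) : ℤ) = -D i k := by rw [e, h3]
    push_cast at h4
    linarith
  have h3 : Squarefree (-(a : ℤ)) := by
    rw [← Int.squarefree_natAbs]
    simpa using ha
  have h4 : -(a : ℤ) < 0 := by
    have := ha.ne_zero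
    omega
  obtain ⟨-, -, M, hM, χ, s, h5, h6, h7, h8⟩ := hE _ hm _ _ _ _ h3 h2 rfl rfl
  refine hz _ h4 h3 M χ h5 h6 s ?_ h8
  have h9 := hY |(D i k : ℝ)| (by rw [abs_of_neg h0]; exact (le_max_left _ _).trans hi)
  have h10 := (abs_le.1 (Complex.abs_re_le_norm (s - 2))).1
  simp only [Function.comp, Complex.sub_re, Complex.re_ofNat] at h9 h10
  linarith

/-- Side theorem: the result under the hypothesis of the question as posed. The points `τ i` have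
quadratic coordinates; `Z` runs over the images of the sets given by a partition (block labels `s`,
the label `0` for the fixed quadratic coordinates `t k`) and rational matrices of positive
determinant, and every such `Z` that is not the whole product holds finitely many `τ i`. -/
theorem posed (n : ℕ) : ∃ (b : ℕ) (E : Set ℤ),
    (∃ C : ℝ, ∀ X : ℕ, ({m : ℕ | m ≤ X ∧ Squarefree m ∧ ∃ f : ℤ, -(f ^ 2 * m) ∈ E}.ncard : ℝ) ≤
      C * Real.exp (Real.log (Real.log X) ^ b)) ∧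
    ∀ N : ℕ, 0 < N → ∀ (Γ : Fin n → Subgroup (Matrix.SpecialLinearGroup (Fin 2) ℤ)),
      (∀ k, CongruenceSubgroup.Gamma N ≤ Γ k) →
      ∀ (F L : IntermediateField ℚ ℂ) [FiniteDimensional ℚ F] [FiniteDimensional ℚ L]
        (B : Fin n → Set (UpperHalfPlane → ℂ)), (∀ k, jInv ∈ B k) →
      (∀ k, ∀ f ∈ B k, IsMF (Γ k) N L f) →
      ∀ τ : ℕ → Fin n → UpperHalfPlane,
      (∀ i k, ∃ p q : ℚ, (τ i k : ℂ) ^ 2 + p * τ i k + q = 0) →
      (∀ k, ∀ᶠ i in atTop, ∀ D, HasDisc (τ i k) D → D ∉ E) →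
      (∀ (s : Fin n → ℕ) (t : Fin n → UpperHalfPlane) (a b c d : Fin n → ℚ)
        (Z : Set (∀ k, YG (Γ k))),
        (∀ k, s k = 0 → ∃ p q : ℚ, (t k : ℂ) ^ 2 + p * t k + q = 0) →
        (∀ k, s k ≠ 0 → 0 < a k * d k - b k * c k) →
        Z = {y | ∃ (z : ℕ → UpperHalfPlane) (w : Fin n → UpperHalfPlane), ∀ k,
          y k = Quotient.mk _ (w k) ∧
          (s k = 0 → w k = t k) ∧
          (s k ≠ 0 → (w k : ℂ) = (a k * z (s k) + b k) / (c k * z (s k) + d k))} →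
        (∃ y, y ∉ Z) → {i | (fun k => Quotient.mk _ (τ i k)) ∈ Z}.Finite) →
      ∀ f : (∀ k, YG (Γ k)) → ℝ, Continuous f → HasCompactSupport f →
        (∀ i, (orbG F Γ B (τ i)).Finite) ∧
          Tendsto (fun i => (∑ᶠ y ∈ orbG F Γ B (τ i), f y) / (orbG F Γ B (τ i)).ncard) atTop
            (nhds (∫ w, f (fun k => Quotient.mk _ (w k)) ∂(Measure.pi fun k => mH (Γ k)))) := by
  obtain ⟨b, E, hC, -, h⟩ := result n
  refine ⟨b, E, hC, fun N hN Γ hΓ F L _ _ B hj hB τ hcm hE H => ?_⟩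
  choose D hD using fun i k => BrQ.disc_of_quad (hcm i k)
  obtain ⟨h1, h2⟩ := BrQ.rec_of_special hN Γ hΓ τ hcm H
  exact h N hN Γ hΓ F L B hj hB τ D hD (fun k => (hE k).mono fun i hi => hi _ (hD i k)) h1 h2

/-- Side theorem: a zero-free half plane for the quadratic characters gives the question as posed,
with no condition on the discriminants. -/
theorem posed_zero_free {δ : ℝ} (hδ : 0 < δ)
    (hz : ∀ d : ℤ, d < 0 → Squarefree d → ∀ (M : ℕ) [NeZero M] (χ : DirichletCharacter ℂ M),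
      M = 4 * d.natAbs → (∀ m : ℕ, Odd m → χ m = jacobiSym d m) →
      ∀ s : ℂ, 1 - δ < s.re → χ.LFunction s ≠ 0)
    (n N : ℕ) (hN : 0 < N) (Γ : Fin n → Subgroup (Matrix.SpecialLinearGroup (Fin 2) ℤ))
    (hΓ : ∀ k, CongruenceSubgroup.Gamma N ≤ Γ k)
    (F L : IntermediateField ℚ ℂ) [FiniteDimensional ℚ F] [FiniteDimensional ℚ L]
    (B : Fin n → Set (UpperHalfPlane → ℂ)) (hj : ∀ k, jInv ∈ B k)
    (hB : ∀ k, ∀ f ∈ B k, IsMF (Γ k) N L f)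
    (τ : ℕ → Fin n → UpperHalfPlane)
    (hcm : ∀ i k, ∃ p q : ℚ, (τ i k : ℂ) ^ 2 + p * τ i k + q = 0)
    (H : ∀ (s : Fin n → ℕ) (t : Fin n → UpperHalfPlane) (a b c d : Fin n → ℚ)
      (Z : Set (∀ k, YG (Γ k))),
      (∀ k, s k = 0 → ∃ p q : ℚ, (t k : ℂ) ^ 2 + p * t k + q = 0) →
      (∀ k, s k ≠ 0 → 0 < a k * d k - b k * c k) →
      Z = {y | ∃ (z : ℕ → UpperHalfPlane) (w : Fin n → UpperHalfPlane), ∀ k,
        y k = Quotient.mk _ (w k) ∧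
        (s k = 0 → w k = t k) ∧
        (s k ≠ 0 → (w k : ℂ) = (a k * z (s k) + b k) / (c k * z (s k) + d k))} →
      (∃ y, y ∉ Z) → {i | (fun k => Quotient.mk _ (τ i k)) ∈ Z}.Finite)
    (f : (∀ k, YG (Γ k)) → ℝ) (hf : Continuous f) (hs : HasCompactSupport f) :
    (∀ i, (orbG F Γ B (τ i)).Finite) ∧
      Tendsto (fun i => (∑ᶠ y ∈ orbG F Γ B (τ i), f y) / (orbG F Γ B (τ i)).ncard) atTop
        (nhds (∫ w, f (fun k => Quotient.mk _ (w k)) ∂(Measure.pi fun k => mH (Γ k)))) := by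
  choose D hD using fun i k => BrQ.disc_of_quad (hcm i k)
  obtain ⟨h1, h2⟩ := BrQ.rec_of_special hN Γ hΓ τ hcm H
  exact zero_free_case hδ hz n N hN Γ hΓ F L B hj hB τ D hD h1 h2 f hf hs

/-- Side theorem: the `IsMF` functions form a ring that contains `L` and `j` and is a finite
module over the polynomials in `j` with coefficients in `L`. -/
theorem coordinate_ring (N : ℕ) (hN : 0 < N)
    (Γ : Subgroup (Matrix.SpecialLinearGroup (Fin 2) ℤ))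
    (hΓ : CongruenceSubgroup.Gamma N ≤ Γ) (L : IntermediateField ℚ ℂ) [FiniteDimensional ℚ L] :
    IsMF Γ N L jInv ∧ (∀ c ∈ L, IsMF Γ N L fun _ => c) ∧
      (∀ f g, IsMF Γ N L f → IsMF Γ N L g → IsMF Γ N L (f + g) ∧ IsMF Γ N L (f * g)) ∧
      ∃ (r : ℕ) (g : Fin r → UpperHalfPlane → ℂ), (∀ a, IsMF Γ N L (g a)) ∧
        ∀ f, IsMF Γ N L f → ∃ (d : ℕ) (x : Fin r → Fin d → ℂ), (∀ a i, x a i ∈ L) ∧
          ∀ t, f t = ∑ a, (∑ i, x a i * jInv t ^ (i : ℕ)) * g a t :=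
  ⟨Br.j_mf hN, fun _ => Br.const_mf, fun _ _ hf hg =>
    ⟨(Br.AG hN hΓ L).add_mem hf hg, (Br.AG hN hΓ L).mul_mem hf hg⟩, Br.finite_mod hN hΓ⟩

/-- Side theorem: if `L` contains `exp (2 π i / N)`, the points of `YG Γ` are exactly the
`L`-algebra maps from the ring of `IsMF` functions to the complex numbers. -/
theorem points (N : ℕ) (hN : 0 < N)
    (Γ : Subgroup (Matrix.SpecialLinearGroup (Fin 2) ℤ))
    (hΓ : CongruenceSubgroup.Gamma N ≤ Γ) (L : IntermediateField ℚ ℂ)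
    (hz : Complex.exp (2 * Real.pi * Complex.I / N) ∈ L) :
    (∀ w w' : UpperHalfPlane, (Quotient.mk _ w : YG Γ) = Quotient.mk _ w' ↔
      ∀ f, IsMF Γ N L f → f w = f w') ∧
    ∀ φ : (UpperHalfPlane → ℂ) → ℂ,
      (∀ f g, IsMF Γ N L f → IsMF Γ N L g → φ (f + g) = φ f + φ g ∧ φ (f * g) = φ f * φ g) →
      (∀ c ∈ L, φ (fun _ => c) = c) →
      ∃ w : UpperHalfPlane, ∀ f, IsMF Γ N L f → f w = φ f :=
  ⟨fun _ _ => Br.mk_eq hN hΓ hz, fun φ h hc =>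
    Br.hom_point hN (Br.good_AG hN hΓ) φ (fun f hf g hg => (h f g hf hg).1)
      (fun f hf g hg => (h f g hf hg).2) hc⟩

/-- Side theorem: let each `B k` be a form over `K` of the ring of `IsMF` functions, that is the
coordinate ring of a model over `K`. Then the automorphisms of the complex numbers fixing
`F ≥ K` act on the points, and `orbG` is the orbit for this action. -/
theorem galois_action (n N : ℕ) (hN : 0 < N)
    (Γ : Fin n → Subgroup (Matrix.SpecialLinearGroup (Fin 2) ℤ))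
    (hΓ : ∀ k, CongruenceSubgroup.Gamma N ≤ Γ k) (K F L : IntermediateField ℚ ℂ) (hF : K ≤ F)
    (hz : Complex.exp (2 * Real.pi * Complex.I / N) ∈ L) (r : ℕ) (e : Fin r → ℂ)
    (he : ∀ a, e a ∈ L) (hL : ∀ c ∈ L, ∃ x : Fin r → ℂ, (∀ a, x a ∈ K) ∧ c = ∑ a, x a * e a)
    (B : Fin n → Set (UpperHalfPlane → ℂ)) (hB : ∀ k, ∀ f ∈ B k, IsMF (Γ k) N L f)
    (hc : ∀ k, ∀ c ∈ K, (fun _ => c) ∈ B k)
    (hr : ∀ k, ∀ f ∈ B k, ∀ g ∈ B k, f + g ∈ B k ∧ f * g ∈ B k)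
    (hu : ∀ k f, IsMF (Γ k) N L f → ∃! g : Fin r → UpperHalfPlane → ℂ,
      (∀ a, g a ∈ B k) ∧ ∀ t, f t = ∑ a, e a * g a t) :
    ∃ act : (ℂ ≃+* ℂ) → (∀ k, YG (Γ k)) → ∀ k, YG (Γ k),
      (∀ σ, (∀ a ∈ F, σ a = a) → ∀ w w' : Fin n → UpperHalfPlane,
        (act σ fun k => Quotient.mk _ (w k)) = (fun k => Quotient.mk _ (w' k)) ↔
          ∀ k, ∀ f ∈ B k, f (w' k) = σ (f (w k))) ∧
      (∀ y, act 1 y = y) ∧
      (∀ σ ρ, (∀ a ∈ F, σ a = a) → (∀ a ∈ F, ρ a = a) →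
        ∀ y, act (σ * ρ) y = act σ (act ρ y)) ∧
      ∀ τ : Fin n → UpperHalfPlane, orbG F Γ B τ =
        {y | ∃ σ, (∀ a ∈ F, σ a = a) ∧ y = act σ fun k => Quotient.mk _ (τ k)} := by
  refine Br.act_of (fun k w w' => (Br.mk_eq hN (hΓ k) hz).trans
    ⟨fun h f hf => h f (hB k f hf), fun h f hf => ?_⟩) fun σ hσ k w =>
      Br.form_point hN (Br.good_AG hN (hΓ k)) he hL (hB k) (hc k) (hr k) (hu k)
        (fun f => σ (f w)) (fun _ _ _ _ => ⟨map_add σ _ _, map_mul σ _ _⟩)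
        fun a ha => hσ a (hF ha)
  obtain ⟨g, h1, h2⟩ := (hu k f hf).exists
  rw [h2, h2]
  exact Finset.sum_congr rfl fun a _ => by rw [h _ (h1 a)]

/-- Side theorem: the case of the model over `L` itself, where `B k` is the whole ring. -/
theorem galois_action_full (n N : ℕ) (hN : 0 < N)
    (Γ : Fin n → Subgroup (Matrix.SpecialLinearGroup (Fin 2) ℤ))
    (hΓ : ∀ k, CongruenceSubgroup.Gamma N ≤ Γ k) (F L : IntermediateField ℚ ℂ) (hF : L ≤ F)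
    (hz : Complex.exp (2 * Real.pi * Complex.I / N) ∈ L)
    (B : Fin n → Set (UpperHalfPlane → ℂ)) (hB : ∀ k f, f ∈ B k ↔ IsMF (Γ k) N L f) :
    ∃ act : (ℂ ≃+* ℂ) → (∀ k, YG (Γ k)) → ∀ k, YG (Γ k),
      (∀ σ, (∀ a ∈ F, σ a = a) → ∀ w w' : Fin n → UpperHalfPlane,
        (act σ fun k => Quotient.mk _ (w k)) = (fun k => Quotient.mk _ (w' k)) ↔
          ∀ k, ∀ f ∈ B k, f (w' k) = σ (f (w k))) ∧
      (∀ y, act 1 y = y) ∧
      (∀ σ ρ, (∀ a ∈ F, σ a = a) → (∀ a ∈ F, ρ a = a) →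
        ∀ y, act (σ * ρ) y = act σ (act ρ y)) ∧
      ∀ τ : Fin n → UpperHalfPlane, orbG F Γ B τ =
        {y | ∃ σ, (∀ a ∈ F, σ a = a) ∧ y = act σ fun k => Quotient.mk _ (τ k)} := by
  refine galois_action n N hN Γ hΓ L F L hF hz 1 (fun _ => 1) (fun _ => one_mem L)
    (fun c hc => ⟨fun _ => c, fun _ => hc, by simp⟩) B (fun k f => (hB k f).1)
    (fun k c hc => (hB k _).2 (Br.const_mf hc)) (fun k f hf g hg => ?_) fun k f hf =>
      ⟨fun _ => f, ⟨fun _ => (hB k f).2 hf, by simp⟩, fun g hg => funext fun a => funext fun t => ?_⟩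
  · rw [hB] at hf hg
    exact ⟨(hB k _).2 ((Br.AG hN (hΓ k) L).add_mem hf hg),
      (hB k _).2 ((Br.AG hN (hΓ k) L).mul_mem hf hg)⟩
  · rw [hg.2 t, Subsingleton.elim a 0]
    simp

/-- Side theorem: the model given by the expansion at infinity. Let `L` be normal over `K`, let
each `Γ k` be stable under conjugation modulo `N` by the diagonal matrices with entries `1, d`
that come from automorphisms fixing `K`, and let `B k` consist of the `IsMF` functions whose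
expansion at infinity has coefficients in `K`. Then `B k` is a ring, finite over the polynomials
in `j` over `K`, the points of `YG (Γ k)` are its `K`-algebra maps to the complex numbers, and
`orbG` is the orbit for the action of the automorphisms fixing `F ≥ K`. -/
theorem rational_model (n N : ℕ) (hN : 0 < N)
    (Γ : Fin n → Subgroup (Matrix.SpecialLinearGroup (Fin 2) ℤ))
    (hΓ : ∀ k, CongruenceSubgroup.Gamma N ≤ Γ k) (K F L : IntermediateField ℚ ℂ)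
    [FiniteDimensional ℚ L] (hK : K ≤ L) (hF : K ≤ F)
    (hz : Complex.exp (2 * Real.pi * Complex.I / N) ∈ L)
    (hL : ∀ σ : ℂ ≃+* ℂ, (∀ a ∈ K, σ a = a) → ∀ c ∈ L, σ c ∈ L)
    (hs : ∀ k, ∀ σ : ℂ ≃+* ℂ, (∀ a ∈ K, σ a = a) → ∀ d : ℤ,
      σ (Complex.exp (2 * Real.pi * Complex.I / N)) =
        Complex.exp (2 * Real.pi * Complex.I / N) ^ d →
      ∀ γ ∈ Γ k, ∀ δ : Matrix.SpecialLinearGroup (Fin 2) ℤ,
        (N : ℤ) ∣ δ 0 0 - γ 0 0 ∧ (N : ℤ) ∣ δ 0 1 - d * γ 0 1 ∧ (N : ℤ) ∣ d * δ 1 0 - γ 1 0 ∧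
          (N : ℤ) ∣ δ 1 1 - γ 1 1 → δ ∈ Γ k)
    (B : Fin n → Set (UpperHalfPlane → ℂ))
    (hB : ∀ k f, f ∈ B k ↔ IsMF (Γ k) N L f ∧ ∃ (m : ℕ) (c : ℕ → ℂ), (∀ i, c i ∈ K) ∧
      ∀ t : UpperHalfPlane,
        HasSum (fun i => c i * Complex.exp (2 * Real.pi * Complex.I * t / N) ^ i)
          (ModularForm.discriminant t ^ m * f t)) :
    (∀ k, jInv ∈ B k ∧ (∀ c ∈ K, (fun _ => c) ∈ B k) ∧
      (∀ f ∈ B k, ∀ g ∈ B k, f + g ∈ B k ∧ f * g ∈ B k) ∧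
      (∃ (r : ℕ) (g : Fin r → UpperHalfPlane → ℂ), (∀ a, g a ∈ B k) ∧
        ∀ f ∈ B k, ∃ (d : ℕ) (x : Fin r → Fin d → ℂ), (∀ a i, x a i ∈ K) ∧
          ∀ t, f t = ∑ a, (∑ i, x a i * jInv t ^ (i : ℕ)) * g a t) ∧
      (∀ w w' : UpperHalfPlane, (Quotient.mk _ w : YG (Γ k)) = Quotient.mk _ w' ↔
        ∀ f ∈ B k, f w = f w') ∧
      ∀ φ : (UpperHalfPlane → ℂ) → ℂ,
        (∀ f ∈ B k, ∀ g ∈ B k, φ (f + g) = φ f + φ g ∧ φ (f * g) = φ f * φ g) →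
        (∀ c ∈ K, φ (fun _ => c) = c) → ∃ w : UpperHalfPlane, ∀ f ∈ B k, f w = φ f) ∧
    ∃ act : (ℂ ≃+* ℂ) → (∀ k, YG (Γ k)) → ∀ k, YG (Γ k),
      (∀ σ, (∀ a ∈ F, σ a = a) → ∀ w w' : Fin n → UpperHalfPlane,
        (act σ fun k => Quotient.mk _ (w k)) = (fun k => Quotient.mk _ (w' k)) ↔
          ∀ k, ∀ f ∈ B k, f (w' k) = σ (f (w k))) ∧
      (∀ y, act 1 y = y) ∧
      (∀ σ ρ, (∀ a ∈ F, σ a = a) → (∀ a ∈ F, ρ a = a) →
        ∀ y, act (σ * ρ) y = act σ (act ρ y)) ∧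
      ∀ τ : Fin n → UpperHalfPlane, orbG F Γ B τ =
        {y | ∃ σ, (∀ a ∈ F, σ a = a) ∧ y = act σ fun k => Quotient.mk _ (τ k)} := by
  obtain rfl : B = fun k => Br.BK (Γ k) N L K := funext fun k => Set.ext (hB k)
  exact ⟨fun k => ⟨Br.bk_j hN, fun _ => Br.bk_const hK, fun _ hf _ hg => Br.bk_ring hN (hΓ k) hf hg,
    Br.bk_finite hN (hΓ k) hK, Br.bk_sep hN (hΓ k) hK hz hL (hs k), Br.bk_point hN (hΓ k) hK⟩,
    Br.act_of (fun k => Br.bk_sep hN (hΓ k) hK hz hL (hs k)) fun σ hσ k w =>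
      Br.bk_point hN (hΓ k) hK (fun f => σ (f w)) (fun _ _ _ _ => ⟨map_add σ _ _, map_mul σ _ _⟩)
        fun a ha => hσ a (hF ha)⟩

/-- Side theorem: the hypotheses of `rational_model` hold, for every `K` inside a cyclotomic `L`,
for the groups cut out by the usual congruence conditions modulo a divisor `M` of `N`. -/
theorem rational_model_applies (N : ℕ) (hN : 0 < N) :
    (∃ L : IntermediateField ℚ ℂ, FiniteDimensional ℚ L ∧
      Complex.exp (2 * Real.pi * Complex.I / N) ∈ L ∧ ∀ σ : ℂ ≃+* ℂ, ∀ c ∈ L, σ c ∈ L) ∧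
    ∀ M : ℤ, M ∣ N → ∀ (σ : ℂ ≃+* ℂ) (d : ℤ), σ (Complex.exp (2 * Real.pi * Complex.I / N)) =
        Complex.exp (2 * Real.pi * Complex.I / N) ^ d →
      ∀ γ δ : Matrix.SpecialLinearGroup (Fin 2) ℤ,
        (N : ℤ) ∣ δ 0 0 - γ 0 0 ∧ (N : ℤ) ∣ δ 0 1 - d * γ 0 1 ∧ (N : ℤ) ∣ d * δ 1 0 - γ 1 0 ∧
          (N : ℤ) ∣ δ 1 1 - γ 1 1 →
        (M ∣ γ 1 0 → M ∣ δ 1 0) ∧ (M ∣ γ 0 1 → M ∣ δ 0 1) ∧ M ∣ δ 0 0 - γ 0 0 ∧
          M ∣ δ 1 1 - γ 1 1 :=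
  ⟨Br.exists_cyc hN, fun _ hM _ d hd _ _ h => ⟨Br.rel_dvd hN hd hM h, fun h1 => by
    simpa using (hM.trans h.2.1).add (h1.mul_left d), hM.trans h.1, hM.trans h.2.2.2⟩⟩

end Pool.Agent.Results.MP_ad7a55_nt.ExceptionalSet
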