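import Pool.Agent.P.MP_ad7a55_nt.JoinedClassNumberBound

open UpperHalfPlane MeasureTheory Filter Topology Pool.Agent.EQ
open scoped MatrixGroups

namespace Pool.Agent.Results.MP_ad7a55_nt.ManySplit

theorem result : ∀ n : ℕ, ∃ b : ℕ, ∀ N : ℕ, 0 < N → ∀ (Γ : Fin n → Subgroup SL(2, ℤ)),
      (∀ k, CongruenceSubgroup.Gamma N ≤ Γ k) →
      ∀ (F L : IntermediateField ℚ ℂ) [FiniteDimensional ℚ F] [FiniteDimensional ℚ L]
        (B : Fin n → Set (ℍ → ℂ)), (∀ k, jInv ∈ B k) → (∀ k, ∀ f ∈ B k, IsMF (Γ k) N L f) →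
      ∀ (A : ℕ) (c : ℝ), 0 < c →
      ∀ (τ : ℕ → Fin n → ℍ) (D : ℕ → Fin n → ℤ), (∀ i k, HasDisc (τ i k) (D i k)) →
      (∀ k, ∀ᶠ i in atTop, ∃ (d f : ℤ) (x : ℝ), Squarefree d ∧ D i k = f ^ 2 * d ∧
        x = Real.log |(D i k : ℝ)| ∧
        (∀ (M : ℕ) [NeZero M] (χ : DirichletCharacter ℂ M), M = 4 * d.natAbs →
          (∀ m : ℕ, Odd m → χ m = jacobiSym d m) →
          ∀ β : ℝ, 1 - c / Real.log M ≤ β → β < 1 → χ.LFunction β ≠ 0) ∧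
        ∀ t : ℕ, x / Real.log x ^ b ≤ Real.log t → ∃ Q : Finset ℕ, t ≤ Q.card ∧
          ∀ p ∈ Q, p.Prime ∧ p ≤ t ^ A ∧ jacobiSym d p = 1) →
      (∀ k, ∀ z : ℂ, {i | jInv (τ i k) = z}.Finite) →
      (∀ k l, k ≠ l → ∀ a b c d : ℤ, 0 < a * d - b * c →
        {i | ∃ z w : ℍ, (w : ℂ) = (a * z + b) / (c * z + d) ∧ jInv (τ i k) = jInv z ∧
          jInv (τ i l) = jInv w}.Finite) →
      ∀ f : (∀ k, YG (Γ k)) → ℝ, Continuous f → HasCompactSupport f →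
        (∀ i, (orbG F Γ B (τ i)).Finite) ∧
          Tendsto (fun i => (∑ᶠ y ∈ orbG F Γ B (τ i), f y) / (orbG F Γ B (τ i)).ncard) atTop
            (𝓝 (∫ w, f (fun k => Quotient.mk _ (w k)) ∂(Measure.pi fun k => mH (Γ k)))) := by
  intro n
  obtain ⟨b, E, -, h⟩ := Joined.joined n
  refine ⟨b, fun N hN Γ hΓ F L _ _ B hj hB A c hc τ D hD hE hpt hgen f hf hs => ?_⟩
  refine h N hN Γ hΓ F L B hj hB ∅ (by simp) A 1 c one_pos hc τ D hD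
    (fun k => (hE k).mono fun i hi => Or.inr ?_) hpt hgen f hf hs
  obtain ⟨d, g, x, h1, h2, h3, h4, h5⟩ := hi
  exact ⟨d, g, x, _, h1, h2, h3, rfl, Or.inr (Or.inr (Or.inr (Or.inr ⟨h4, Or.inr h5⟩)))⟩

end Pool.Agent.Results.MP_ad7a55_nt.ManySplit
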