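import Pool.Agent.P.MP_ad7a55_nt.JoinedClassNumberBound

open UpperHalfPlane MeasureTheory Filter Topology Pool.Agent.EQ
open scoped MatrixGroups

namespace Pool.Agent.Results.MP_ad7a55_nt.SmoothPart

theorem result (n : ℕ) : ∀ N : ℕ, 0 < N → ∀ (Γ : Fin n → Subgroup SL(2, ℤ)),
      (∀ k, CongruenceSubgroup.Gamma N ≤ Γ k) →
      ∀ (F L : IntermediateField ℚ ℂ) [FiniteDimensional ℚ F] [FiniteDimensional ℚ L]
        (B : Fin n → Set (ℍ → ℂ)), (∀ k, jInv ∈ B k) → (∀ k, ∀ f ∈ B k, IsMF (Γ k) N L f) →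
      ∀ (S : Finset ℕ), (∀ p ∈ S, p.Prime) → ∀ η : ℝ, 0 < η →
      ∀ (τ : ℕ → Fin n → ℍ) (D : ℕ → Fin n → ℤ), (∀ i k, HasDisc (τ i k) (D i k)) →
      (∀ k, ∀ᶠ i in atTop, |(D i k : ℝ)| ^ η ≤ ∏ p ∈ S, (p : ℝ) ^ padicValInt p (D i k)) →
      (∀ k, ∀ z : ℂ, {i | jInv (τ i k) = z}.Finite) →
      (∀ k l, k ≠ l → ∀ a b c d : ℤ, 0 < a * d - b * c →
        {i | ∃ z w : ℍ, (w : ℂ) = (a * z + b) / (c * z + d) ∧ jInv (τ i k) = jInv z ∧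
          jInv (τ i l) = jInv w}.Finite) →
      ∀ f : (∀ k, YG (Γ k)) → ℝ, Continuous f → HasCompactSupport f →
        (∀ i, (orbG F Γ B (τ i)).Finite) ∧
          Tendsto (fun i => (∑ᶠ y ∈ orbG F Γ B (τ i), f y) / (orbG F Γ B (τ i)).ncard) atTop
            (𝓝 (∫ w, f (fun k => Quotient.mk _ (w k)) ∂(Measure.pi fun k => mH (Γ k)))) := by
  obtain ⟨b, E, -, h⟩ := Joined.joined n
  intro N hN Γ hΓ F L _ _ B hj hB S hS η hη τ D hD hE hpt hgen f hf hs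
  exact h N hN Γ hΓ F L B hj hB S hS 0 η 1 hη one_pos τ D hD
    (fun k => (hE k).mono fun i hi => Or.inl hi) hpt hgen f hf hs

end Pool.Agent.Results.MP_ad7a55_nt.SmoothPart
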